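import Mathlib

/-!
# Delannoy numbers modulo 3
-/

set_option autoImplicit false

namespace Pool.Agent.Helper125_NCE

open Finset

/-- Delannoy numbers modulo 3 -/
def sg (i j : ℕ) : ZMod 3 := ∑ l ∈ range (i + 1), (i.choose l : ZMod 3) * (j.choose l : ZMod 3) * 2 ^ l

theorem sg_eq (i j N : ℕ) (h : i + 1 ≤ N) :
    sg i j = ∑ l ∈ range N, (i.choose l : ZMod 3) * (j.choose l : ZMod 3) * 2 ^ l := by
  unfold sg
  apply Finset.sum_subset (by simpa using h)
  intro l _ hl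
  rw [Finset.mem_range, not_lt] at hl
  rw [Nat.choose_eq_zero_of_lt (by omega)]
  simp

theorem sg_rec (i j : ℕ) : sg (i + 1) (j + 1) = sg (i + 1) j + sg i (j + 1) + sg i j := by
  have h1 := sg_eq (i + 1) (j + 1) (i + 2) le_rfl
  have h2 := sg_eq (i + 1) j (i + 2) le_rfl
  have h3 := sg_eq i (j + 1) (i + 2) (by omega)
  have h4 := sg_eq i j (i + 2) (by omega)
  have h5 : sg i j = ∑ l ∈ range (i + 1), (i.choose l : ZMod 3) * (j.choose l : ZMod 3) * 2 ^ l := rfl
  rw [Finset.sum_range_succ'] at h1 h2 h3 h4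
  simp only [Nat.choose_succ_succ, Nat.cast_add, pow_succ, Nat.choose_zero_right, Nat.cast_one,
    pow_zero, mul_one] at h1 h2 h3 h4
  have e1 : ∀ l : ℕ, ((i.choose l : ZMod 3) + (i.choose (l + 1) : ZMod 3)) *
      ((j.choose l : ZMod 3) + (j.choose (l + 1) : ZMod 3)) * (2 ^ l * 2) =
      2 * ((i.choose l : ZMod 3) * (j.choose l : ZMod 3) * 2 ^ l) +
      (((i.choose l : ZMod 3) + (i.choose (l + 1) : ZMod 3)) * (j.choose (l + 1) : ZMod 3) * (2 ^ l * 2)) +
      ((i.choose (l + 1) : ZMod 3) * ((j.choose l : ZMod 3) + (j.choose (l + 1) : ZMod 3)) * (2 ^ l * 2)) -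
      ((i.choose (l + 1) : ZMod 3) * (j.choose (l + 1) : ZMod 3) * (2 ^ l * 2)) := by
    intro l
    ring
  rw [Finset.sum_congr rfl (fun l _ => e1 l), Finset.sum_sub_distrib, Finset.sum_add_distrib,
    Finset.sum_add_distrib, ← Finset.mul_sum, ← h5] at h1
  linear_combination h1 - h2 - h3 + h4

theorem choose_pow_cast (k l : ℕ) (h0 : l ≠ 0) (h1 : l ≠ 3 ^ k) : ((3 ^ k).choose l : ZMod 3) = 0 := by
  rw [ZMod.natCast_eq_zero_iff]
  exact Nat.Prime.dvd_choose_pow Nat.prime_three h0 h1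

theorem sg_lt (i k : ℕ) (h : i < 3 ^ k) : sg i (3 ^ k) = 1 := by
  unfold sg
  rw [Finset.sum_range_succ']
  simp only [Nat.choose_zero_right, Nat.cast_one, pow_zero, mul_one]
  rw [Finset.sum_eq_zero, zero_add]
  intro l hl
  rw [Finset.mem_range] at hl
  rw [choose_pow_cast k (l + 1) (by omega) (by omega)]
  simp

theorem sg_diag (k : ℕ) : sg (3 ^ k) (3 ^ k) = 0 := by
  unfold sg
  rw [Finset.sum_range_succ]
  have h3 : 0 < 3 ^ k := by positivity
  have h : ∑ l ∈ range (3 ^ k), ((3 ^ k).choose l : ZMod 3) * ((3 ^ k).choose l : ZMod 3) * 2 ^ l = 1 := by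
    rw [Finset.sum_eq_single_of_mem 0 (by simpa using h3)]
    · simp
    · intro l hl h0
      rw [Finset.mem_range] at hl
      rw [choose_pow_cast k l h0 (by omega)]
      simp
  rw [h, Nat.choose_self]
  have h2 : (2 : ZMod 3) ^ (3 ^ k) = 2 := by
    have : Fact (Nat.Prime 3) := ⟨Nat.prime_three⟩
    exact ZMod.pow_card_pow (p := 3) 2
  rw [h2]
  decide

end Pool.Agent.Helper125_NCE
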