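import Mathlib

/-!
# Labels of edges in Cayley graphs of groups with a map to `ℤ ^ n` separating the generators
-/

set_option autoImplicit false

namespace Pool.Agent.Helper125_NCE

theorem comm_aux {K : Type} [CommGroup K] (a b : K) : a * b * a⁻¹ * b⁻¹ = 1 := by
  rw [mul_comm a b]
  group

section Labels

variable {n : ℕ} {P : Type} [Group P] (t : Fin n → P)

/-- signed generators -/
def Lab : Set P := {s | ∃ i, s = t i ∨ s = (t i)⁻¹}

theorem lab_finite : (Lab t).Finite := by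
  apply Set.Finite.subset ((Set.finite_range t).union (Set.finite_range (fun i => (t i)⁻¹)))
  rintro s ⟨i, h | h⟩
  · exact Or.inl ⟨i, h.symm⟩
  · exact Or.inr ⟨i, h.symm⟩

variable {t}

theorem lab_exp {s : P} (h : s ∈ Lab t) : ∃ (i : Fin n) (e : ℤ), (e = 1 ∨ e = -1) ∧ s = t i ^ e := by
  obtain ⟨i, h | h⟩ := h
  · exact ⟨i, 1, Or.inl rfl, by simpa using h⟩
  · exact ⟨i, -1, Or.inr rfl, by simpa using h⟩

theorem vec_lemma (i1 i2 i3 i4 : Fin n) (e1 e2 e3 e4 : ℤ) (h1 : e1 = 1 ∨ e1 = -1)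
    (h2 : e2 = 1 ∨ e2 = -1) (h3 : e3 = 1 ∨ e3 = -1) (h4 : e4 = 1 ∨ e4 = -1)
    (h : (Pi.single i1 e1 + Pi.single i2 e2 : Fin n → ℤ) = Pi.single i3 e3 + Pi.single i4 e4)
    (h13 : ¬ (i1 = i3 ∧ e1 = e3)) (h12 : ¬ (i1 = i2 ∧ e1 = -e2)) :
    (i1 = i4 ∧ e1 = e4) ∧ (i2 = i3 ∧ e2 = e3) := by
  have k1 := congrFun h i1
  have k2 := congrFun h i2
  have k3 := congrFun h i3
  have k4 := congrFun h i4
  simp only [Pi.add_apply, Pi.single_apply] at k1 k2 k3 k4
  by_cases c12 : i1 = i2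
  · subst c12
    by_cases c13 : i1 = i3
    · subst c13
      by_cases c14 : i1 = i4
      · subst c14
        simp at k1 h13 h12 ⊢
        omega
      · simp [c14, Ne.symm c14, eq_comm] at k1 k2 k3 k4 h13 h12 ⊢
        omega
    · by_cases c14 : i1 = i4
      · subst c14
        simp [c13, Ne.symm c13] at k1 k2 k3 k4 h12
        omega
      · simp [c13, Ne.symm c13, c14, Ne.symm c14] at k1 k2 k3 k4 h12
        omega
  · by_cases c13 : i1 = i3
    · subst c13
      by_cases c14 : i1 = i4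
      · subst c14
        simp [c12, Ne.symm c12] at k1 k2 k3 k4 h13
        omega
      · simp [c12, Ne.symm c12, c14, Ne.symm c14] at k1 k2 k3 k4 h13
        omega
    · by_cases c14 : i1 = i4
      · subst c14
        by_cases c23 : i2 = i3
        · subst c23
          simp [c12, Ne.symm c12] at k1 k2 k3 k4 ⊢
          omega
        · simp [c12, Ne.symm c12, c13, Ne.symm c13, c23, Ne.symm c23] at k1 k2 k3 k4 ⊢
          omega
      · simp [c12, Ne.symm c12, c13, Ne.symm c13, c14, Ne.symm c14] at k1 k2 k3 k4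
        omega

/-- opposite sides of a square have the same label -/
theorem square_labels (ab : P →* Multiplicative (Fin n → ℤ))
    (hab : ∀ i, ab (t i) = Multiplicative.ofAdd (Pi.single i 1))
    {s s' r r' : P} (hs : s ∈ Lab t) (hs' : s' ∈ Lab t) (hr : r ∈ Lab t) (hr' : r' ∈ Lab t)
    (h : s * r' = r * s') (hsr : s ≠ r) (h1 : s * r' ≠ 1) : s = s' ∧ r = r' := by
  have hz : ∀ (i : Fin n) (e : ℤ), ab (t i ^ e) = Multiplicative.ofAdd (Pi.single i e) := by
    intro i e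
    rw [map_zpow, hab, ← ofAdd_zsmul, ← Pi.single_smul]
    simp
  obtain ⟨i1, e1, q1, rfl⟩ := lab_exp hs
  obtain ⟨i4, e4, q4, rfl⟩ := lab_exp hs'
  obtain ⟨i3, e3, q3, rfl⟩ := lab_exp hr
  obtain ⟨i2, e2, q2, rfl⟩ := lab_exp hr'
  have h2 := congrArg ab h
  rw [map_mul, map_mul, hz, hz, hz, hz, ← ofAdd_add, ← ofAdd_add] at h2
  have h3 := Multiplicative.ofAdd.injective h2
  obtain ⟨⟨rfl, rfl⟩, rfl, rfl⟩ := vec_lemma i1 i2 i3 i4 e1 e2 e3 e4 q1 q2 q3 q4 h3
    (by rintro ⟨rfl, rfl⟩; exact hsr rfl)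
    (by rintro ⟨rfl, rfl⟩; apply h1; simp)
  exact ⟨rfl, rfl⟩

end Labels

end Pool.Agent.Helper125_NCE
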