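import Pool.Agent.Helper125_NCE.Sys
import Pool.Agent.Helper125_NCE.Del
import Pool.Agent.Helper125_NCE.Raag

/-!
# A cocompact CAT(0) square complex without convex embeddings in Salvetti complexes
-/

set_option autoImplicit false

namespace Pool.Agent.Helper125_NCE

open Pool.Agent.W387 Pool.Agent.W387.SqSys

/-- labels of the horizontal edges of the flat -/
def xi (i j : ℕ) : ZMod 3 := sg (i + 1) j - sg i j

theorem sg_succ (i j : ℕ) : sg (i + 1) j = sg i j + xi i j := by
  unfold xi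
  ring

theorem xi_succ (i j : ℕ) : xi i (j + 1) = xi i j - sg i j := by
  have h3 : (3 : ZMod 3) = 0 := by decide
  unfold xi
  rw [sg_rec]
  linear_combination (sg i j) * h3

/-- the first column of the flat -/
noncomputable def col : ℕ → sys.Grp
  | 0 => 1
  | j + 1 => sys.gn (dS (sg 0 j)) * col j

/-- the vertices of the flat -/
noncomputable def pt : ℕ → ℕ → sys.Grp
  | 0, j => col j
  | i + 1, j => sys.gn (dX (xi i j)) * pt i j

theorem pt_right (i j : ℕ) : pt (i + 1) j = sys.gn (dX (xi i j)) * pt i j := rfl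

theorem pt_up (i j : ℕ) : pt i (j + 1) = sys.gn (dS (sg i j)) * pt i j := by
  induction i with
  | zero => rfl
  | succ i ih =>
    rw [pt_right, ih, xi_succ, ← mul_assoc, rel_XS, ← sg_succ, mul_assoc, ← pt_right]

theorem gn_injective {A : Type} {S : SqSys A} {a b : A} (h : S.gn a = S.gn b) : a = b := by
  apply E_single (S := S)
  apply E_of_evL_eq (red_single a) (red_single b)
  simpa using h

theorem gn_mul_ne_one {A : Type} {S : SqSys A} {a b : A} (h : a ≠ S.inv b) :
    S.gn a * S.gn b ≠ 1 := by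
  intro h1
  apply h
  apply gn_injective (S := S)
  rw [gn_inv]
  exact eq_inv_of_mul_eq_one_left h1

theorem adj_gn {A : Type} {S : SqSys A} (a : A) (g : S.Grp) : S.Cay.Adj ⟨g⟩ ⟨S.gn a * g⟩ :=
  ⟨a, rfl⟩

theorem cay_no_triangle {A : Type} {S : SqSys A} {u v w : S.Vx} (h1 : S.Cay.Adj u v)
    (h2 : S.Cay.Adj u w) : ¬ S.Cay.Adj v w := by
  intro h3
  rw [← SimpleGraph.dist_eq_one_iff_adj, cay_dist] at h1 h2 h3
  exact medD.bip u.g v.g w.g h3 (h1.trans h2.symm)

section Embedding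

variable {n : ℕ} {P : Type} [Group P] {t : Fin n → P} {C : SimpleGraph P}

/-- `s` and `r` commute and span a square -/
def Sp (s r : P) : Prop := s * r = r * s ∧ s ≠ r ∧ s * r ≠ 1

theorem adj_mul (hC : ∀ g h : P, C.Adj g h ↔ (g ≠ h ∧ ∃ i : Fin n, h = g * t i ∨ g = h * t i))
    {g r : P} (hr : r ∈ Lab t) (h1 : r ≠ 1) : C.Adj g (g * r) := by
  rw [hC]
  refine ⟨fun h => h1 (by simpa using h.symm), ?_⟩
  obtain ⟨i, rfl | rfl⟩ := hr
  · exact ⟨i, Or.inl rfl⟩
  · exact ⟨i, Or.inr (by simp)⟩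

theorem lab_of_adj
    (hC : ∀ g h : P, C.Adj g h ↔ (g ≠ h ∧ ∃ i : Fin n, h = g * t i ∨ g = h * t i))
    {g h : P} (ha : C.Adj g h) : g⁻¹ * h ∈ Lab t := by
  obtain ⟨_, i, h1 | h1⟩ := (hC g h).mp ha
  · exact ⟨i, Or.inl (by rw [h1]; simp)⟩
  · exact ⟨i, Or.inr (by rw [h1]; simp)⟩

theorem no_embedding
    (ab : P →* Multiplicative (Fin n → ℤ))
    (hab : ∀ i, ab (t i) = Multiplicative.ofAdd (Pi.single i 1))
    (hC : ∀ g h : P, C.Adj g h ↔ (g ≠ h ∧ ∃ i : Fin n, h = g * t i ∨ g = h * t i))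
    (f : sys.Cay ↪g C)
    (hf : ∀ a b c : P, a ∈ Set.range f → b ∈ Set.range f →
      C.dist a c + C.dist c b = C.dist a b → c ∈ Set.range f) : False := by
  -- labels of edges
  have hl : ∀ {v w : sys.Vx}, sys.Cay.Adj v w → (f v)⁻¹ * f w ∈ Lab t := fun h =>
    lab_of_adj hC (f.map_adj_iff.mpr h)
  have hsq : ∀ {v p q w : sys.Vx}, sys.Cay.Adj v p → sys.Cay.Adj v q → sys.Cay.Adj p w →
      sys.Cay.Adj q w → p ≠ q → v ≠ w →
      (f v)⁻¹ * f p = (f q)⁻¹ * f w ∧ (f v)⁻¹ * f q = (f p)⁻¹ * f w := by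
    intro v p q w h1 h2 h3 h4 hpq hvw
    apply square_labels ab hab (hl h1) (hl h4) (hl h2) (hl h3)
    · group
    · intro h
      exact hpq (f.injective (mul_left_cancel h))
    · intro h
      apply hvw
      apply f.injective
      have : (f v)⁻¹ * f w = 1 := by
        rw [← h]
        group
      exact (inv_mul_eq_one.mp this)
  -- squares of the group
  have hgsq : ∀ {a b p q : Dt} (g : sys.Grp), sys.gn b * sys.gn p = sys.gn a * sys.gn q →
      p ≠ q → b ≠ sys.inv p →
      (f ⟨g⟩)⁻¹ * f ⟨sys.gn p * g⟩ = (f ⟨sys.gn q * g⟩)⁻¹ * f ⟨sys.gn b * (sys.gn p * g)⟩ ∧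
      (f ⟨g⟩)⁻¹ * f ⟨sys.gn q * g⟩ =
        (f ⟨sys.gn p * g⟩)⁻¹ * f ⟨sys.gn b * (sys.gn p * g)⟩ := by
    intro a b p q g h hpq hb
    apply hsq (adj_gn p g) (adj_gn q g) (adj_gn b _)
    · refine ⟨a, ?_⟩
      show sys.gn b * (sys.gn p * g) = sys.gn a * (sys.gn q * g)
      rw [← mul_assoc, h, mul_assoc]
    · intro h1
      exact hpq (gn_injective (mul_right_cancel (congrArg Vx.g h1)))
    · intro h1
      have h2 : g = sys.gn b * (sys.gn p * g) := congrArg Vx.g h1
      apply gn_mul_ne_one hb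
      have h3 : (sys.gn b * sys.gn p) * g = 1 * g := by
        rw [mul_assoc, ← h2, one_mul]
      exact mul_right_cancel h3
  -- the labels of the extra edges
  have hE : ∀ i j, (f ⟨pt i j⟩)⁻¹ * f ⟨sys.gn dE * pt i j⟩ =
      (f ⟨pt i 0⟩)⁻¹ * f ⟨sys.gn dE * pt i 0⟩ := by
    intro i j
    induction j with
    | zero => rfl
    | succ j ih =>
      rw [← ih]
      have h := (hgsq (a := dE) (b := dS (sg i j)) (p := dE) (q := dS (sg i j)) (pt i j)
        (rel_ES _).symm (by simp [dE, dS]) (by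
          show dS (sg i j) ≠ inv dE
          simp [dE, dS, inv])).1
      rw [h, ← pt_up, ← mul_assoc, ← rel_ES, mul_assoc, ← pt_up]
  have hF : ∀ i j, (f ⟨pt i j⟩)⁻¹ * f ⟨sys.gn (dF (sg i j)) * pt i j⟩ =
      (f ⟨pt 0 j⟩)⁻¹ * f ⟨sys.gn (dF (sg 0 j)) * pt 0 j⟩ := by
    intro i j
    induction i with
    | zero => rfl
    | succ i ih =>
      rw [← ih]
      have h := (hgsq (a := dF (sg (i + 1) j)) (b := dX (xi i j - sg i j)) (p := dF (sg i j))
        (q := dX (xi i j)) (pt i j) (by rw [sg_succ]; exact rel_XF _ _) (by simp [dF, dX]) (by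
          show dX (xi i j - sg i j) ≠ inv (dF (sg i j))
          simp [dX, dF, inv])).1
      rw [h, ← pt_right, ← mul_assoc, rel_XF, ← sg_succ, mul_assoc, ← pt_right]
  -- squares at the points of the flat
  have hK : ∀ i j, sg i j = 0 ↔ Sp ((f ⟨pt i 0⟩)⁻¹ * f ⟨sys.gn dE * pt i 0⟩)
      ((f ⟨pt 0 j⟩)⁻¹ * f ⟨sys.gn (dF (sg 0 j)) * pt 0 j⟩) := by
    intro i j
    rw [← hE i j, ← hF i j]
    have hne : (⟨sys.gn dE * pt i j⟩ : sys.Vx) ≠ ⟨sys.gn (dF (sg i j)) * pt i j⟩ := by
      intro h1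
      have := gn_injective (mul_right_cancel (congrArg Vx.g h1))
      simp [dE, dF] at this
    constructor
    · intro h0
      rw [h0] at hne ⊢
      obtain ⟨h1, h2⟩ := hgsq (a := dF 0) (b := dE) (p := dF 0) (q := dE) (pt i j)
        rel_EF (by simp [dE, dF]) (by
          show dE ≠ inv (dF 0)
          simp [dE, dF, inv])
      refine ⟨?_, ?_, ?_⟩
      · conv_lhs => rw [h1]
        conv_rhs => rw [h2]
        group
      · intro h
        exact hne (f.injective (mul_left_cancel h))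
      · rw [h1]
        intro h
        have h3 : (f ⟨pt i j⟩)⁻¹ * f ⟨sys.gn dE * (sys.gn (dF 0) * pt i j)⟩ = 1 := by
          rw [← h]
          group
        have h4 := congrArg Vx.g (f.injective (inv_mul_eq_one.mp h3))
        have h5 : sys.gn dE * sys.gn (dF 0) = 1 := by
          have h6 : (sys.gn dE * sys.gn (dF 0)) * pt i j = 1 * pt i j := by
            rw [mul_assoc, one_mul]
            exact h4.symm
          exact mul_right_cancel h6
        refine gn_mul_ne_one (S := sys) (a := dE) (b := dF 0) ?_ h5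
        show dE ≠ inv (dF 0)
        simp [dE, dF, inv]
    · rintro ⟨h1, h2, h3⟩
      have a1 := adj_gn (S := sys) dE (pt i j)
      have a2 := adj_gn (S := sys) (dF (sg i j)) (pt i j)
      set v : sys.Vx := ⟨pt i j⟩ with hv
      set p : sys.Vx := ⟨sys.gn dE * pt i j⟩ with hp
      set q : sys.Vx := ⟨sys.gn (dF (sg i j)) * pt i j⟩ with hq
      have ls := hl a1
      have lr := hl a2
      set s : P := (f v)⁻¹ * f p with hs
      set r : P := (f v)⁻¹ * f q with hr
      have ep : f p = f v * s := by rw [hs]; group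
      have eq : f q = f v * r := by rw [hr]; group
      clear_value s r
      have s1 : s ≠ 1 := by
        intro h
        rw [h, mul_one] at ep
        exact a1.ne (f.injective ep).symm
      have r1 : r ≠ 1 := by
        intro h
        rw [h, mul_one] at eq
        exact a2.ne (f.injective eq).symm
      have b1 : C.Adj (f p) (f v * (s * r)) := by
        have h := adj_mul hC (g := f v * s) lr r1
        rwa [mul_assoc, ← ep] at h
      have b2 : C.Adj (f q) (f v * (s * r)) := by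
        have h := adj_mul hC (g := f v * r) ls s1
        rwa [mul_assoc, ← eq, ← h1] at h
      have hd : C.dist (f p) (f q) = 2 := by
        have hw : C.dist (f p) (f q) ≤ 2 :=
          SimpleGraph.dist_le (SimpleGraph.Walk.cons b1 (SimpleGraph.Walk.cons b2.symm
            SimpleGraph.Walk.nil))
        have hreach : C.Reachable (f p) (f q) := ⟨SimpleGraph.Walk.cons b1
          (SimpleGraph.Walk.cons b2.symm SimpleGraph.Walk.nil)⟩
        have hw0 : C.dist (f p) (f q) ≠ 0 := by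
          intro h
          exact hne (f.injective (hreach.dist_eq_zero_iff.mp h))
        have hw1 : C.dist (f p) (f q) ≠ 1 := by
          intro h
          rw [SimpleGraph.dist_eq_one_iff_adj, f.map_adj_iff] at h
          exact cay_no_triangle a1 a2 h
        omega
      obtain ⟨y, hy⟩ := hf (f p) (f q) (f v * (s * r)) ⟨p, rfl⟩ ⟨q, rfl⟩ (by
        rw [hd, SimpleGraph.dist_eq_one_iff_adj.mpr b1,
          SimpleGraph.dist_eq_one_iff_adj.mpr b2.symm])
      rw [← hy, f.map_adj_iff] at b1 b2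
      refine EF_square (v := v) (y := y) ?_ b1 b2 ?_
      · rintro rfl
        apply h3
        simpa using hy
      · intro h
        exact hne (Vx.ext h)
  -- pigeonhole
  have hfin : ∃ k k' : ℕ, k < k' ∧
      (f ⟨pt 0 (3 ^ k)⟩)⁻¹ * f ⟨sys.gn (dF (sg 0 (3 ^ k))) * pt 0 (3 ^ k)⟩ =
      (f ⟨pt 0 (3 ^ k')⟩)⁻¹ * f ⟨sys.gn (dF (sg 0 (3 ^ k'))) * pt 0 (3 ^ k')⟩ := by
    have hF : Finite (Lab t) := (lab_finite t).to_subtype
    obtain ⟨k, k', hkk, he⟩ := Finite.exists_ne_map_eq_of_infinite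
      (fun k : ℕ => (⟨(f ⟨pt 0 (3 ^ k)⟩)⁻¹ * f ⟨sys.gn (dF (sg 0 (3 ^ k))) * pt 0 (3 ^ k)⟩,
        hl (adj_gn _ _)⟩ : Lab t))
    have he' := congrArg Subtype.val he
    rcases lt_or_gt_of_ne hkk with h | h
    · exact ⟨k, k', h, he'⟩
    · exact ⟨k', k, h, he'.symm⟩
  obtain ⟨k, k', hkk, he⟩ := hfin
  have h1 := (hK (3 ^ k) (3 ^ k)).mp (sg_diag k)
  rw [he] at h1
  have h2 := (hK (3 ^ k) (3 ^ k')).mpr h1
  rw [sg_lt (3 ^ k) k' (Nat.pow_lt_pow_right (by norm_num) hkk)] at h2
  exact absurd h2 (by decide)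

end Embedding

end Pool.Agent.Helper125_NCE
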