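-- Disproof of Q1 of MP_bcc336_al (withdrawn as a hand-in: known by Behrstock-Hagen-Sisto + Shepherd).
import Mathlib
import Pool.Agent.Helper125_NCE.Main

set_option autoImplicit false
open Pool

namespace Pool.Agent.Helper125_NCE.NegQ1

/-- The negation of the preceding statement: Every CAT(0) cube complex (as a median graph) with a proper cocompact cubical group action embeds as a convex subcomplex of the universal cover of the Salvetti complex of some RAAG on a finite graph, i.e. convexly into the RAAG's standard Cayley graph. -/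
theorem result :
    ¬ (∀ (V : Type) (G : SimpleGraph V) (H : Type) [Group H] [MulAction H V],
    G.Connected →
    (∀ x y z : V, ∃! m : V,
        G.dist x m + G.dist m y = G.dist x y ∧
        G.dist y m + G.dist m z = G.dist y z ∧
        G.dist x m + G.dist m z = G.dist x z) →
    (∀ v : V, (G.neighborSet v).Finite) →
    (∀ (h : H) (x y : V), G.Adj (h • x) (h • y) ↔ G.Adj x y) →
    (∀ v : V, (MulAction.stabilizer H v : Set H).Finite) →
    Finite (MulAction.orbitRel.Quotient H V) →
    ∃ (n : ℕ) (Γ : SimpleGraph (Fin n)) (R : Set (FreeGroup (Fin n))),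
      R = {r | ∃ i j : Fin n, Γ.Adj i j ∧
        r = FreeGroup.of i * FreeGroup.of j * (FreeGroup.of i)⁻¹ * (FreeGroup.of j)⁻¹} ∧
      ∃ (C : SimpleGraph (PresentedGroup R)),
        (∀ g h : PresentedGroup R, C.Adj g h ↔
          (g ≠ h ∧ ∃ i : Fin n, h = g * PresentedGroup.of i ∨ g = h * PresentedGroup.of i)) ∧
        ∃ f : G ↪g C,
          ∀ a b c : PresentedGroup R, a ∈ Set.range f → b ∈ Set.range f →
            C.dist a c + C.dist c b = C.dist a b → c ∈ Set.range f) := by
  intro hall
  obtain ⟨n, Γ, R, hR, C, hC, f, hf⟩ := hall (W387.SqSys.Vx Helper125_NCE.sys)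
    (W387.SqSys.Cay Helper125_NCE.sys) (W387.SqSys.Grp Helper125_NCE.sys)
    W387.SqSys.cay_connected
    (by
      intro x y z
      simp only [W387.SqSys.cay_dist]
      obtain ⟨m, hm, hm2⟩ := W387.SqSys.medD.existsUnique x.g y.g z.g
      exact ⟨⟨m⟩, hm, fun m' hm' => W387.SqSys.Vx.ext (hm2 m'.g hm')⟩)
    (by
      intro v
      apply Set.Finite.subset (Set.finite_range
        (fun a : Helper125_NCE.Dt => (⟨Helper125_NCE.sys.gn a * v.g⟩ : W387.SqSys.Vx _)))
      rintro w ⟨a, h⟩
      exact ⟨a, W387.SqSys.Vx.ext h.symm⟩)
    (by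
      intro g u v
      constructor
      · rintro ⟨a, h⟩
        refine ⟨a, ?_⟩
        rw [W387.SqSys.smul_def, W387.SqSys.smul_def, ← mul_assoc] at h
        exact mul_right_cancel h
      · rintro ⟨a, h⟩
        refine ⟨a, ?_⟩
        rw [W387.SqSys.smul_def, W387.SqSys.smul_def, h, mul_assoc])
    (by
      intro v
      apply Set.Finite.subset (Set.finite_singleton (1 : W387.SqSys.Grp Helper125_NCE.sys))
      intro g hg
      have h1 : g • v = v := hg
      rw [W387.SqSys.smul_def] at h1
      have h2 : v.g * g⁻¹ = v.g := congrArg W387.SqSys.Vx.g h1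
      have h3 : g = 1 := by simpa using h2
      exact h3)
    (by
      have hs : Subsingleton (MulAction.orbitRel.Quotient (W387.SqSys.Grp Helper125_NCE.sys)
          (W387.SqSys.Vx Helper125_NCE.sys)) := by
        constructor
        intro a b
        induction a using Quotient.inductionOn with
        | h u =>
        induction b using Quotient.inductionOn with
        | h v =>
        apply Quotient.sound
        show u ∈ MulAction.orbit _ v
        refine ⟨u.g⁻¹ * v.g, ?_⟩
        show (u.g⁻¹ * v.g) • v = u
        rw [W387.SqSys.smul_def]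
        apply W387.SqSys.Vx.ext
        show v.g * (u.g⁻¹ * v.g)⁻¹ = u.g
        group
      infer_instance)
  subst hR
  refine Helper125_NCE.no_embedding (n := n) (t := fun i => PresentedGroup.of i)
    (PresentedGroup.toGroup (f := fun i => Multiplicative.ofAdd (Pi.single i (1 : ℤ))) ?_)
    (fun i => PresentedGroup.toGroup.of _) hC f hf
  rintro r ⟨i, j, -, rfl⟩
  simp only [map_mul, map_inv, FreeGroup.lift_apply_of]
  exact Helper125_NCE.comm_aux _ _

end Pool.Agent.Helper125_NCE.NegQ1
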