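import Pool.Agent.W387.SqMedian
import Pool.Agent.W387.OfList

/-!
# A one-vertex square complex

Letters `X i`, `S i`, `F i` (`i` in `ZMod 3`) and `E`; squares
`X (x - s) S s = S (s + x) X x`, `X (x - s) F s = F (s + x) X x`, `E S s = S s E`, `E F 0 = F 0 E`.
-/

set_option autoImplicit false

namespace Pool.Agent.Helper125_NCE

open Pool.Agent.W387 Pool.Agent.W387.SqSys

/-- the letters -/
inductive Lt : Type
  | X (i : ZMod 3)
  | S (i : ZMod 3)
  | F (i : ZMod 3)
  | E
  deriving DecidableEq

/-- the darts -/
abbrev Dt : Type := Lt × Bool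

/-- inverse darts -/
def inv (a : Dt) : Dt := (a.1, !a.2)

/-- horizontal dart -/
def dX (i : ZMod 3) : Dt := (Lt.X i, true)
/-- vertical dart -/
def dS (i : ZMod 3) : Dt := (Lt.S i, true)
/-- vertical extra dart -/
def dF (i : ZMod 3) : Dt := (Lt.F i, true)
/-- horizontal extra dart -/
def dE : Dt := (Lt.E, true)

/-- all elements of `ZMod 3` -/
def l3 : List (ZMod 3) := [0, 1, 2]

/-- the squares -/
def L : List (Dt × Dt × Dt × Dt) :=
  (l3.flatMap fun s => l3.map fun x => (dX (x - s), dS s, dS (s + x), dX x)) ++
  (l3.flatMap fun s => l3.map fun x => (dX (x - s), dF s, dF (s + x), dX x)) ++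
  (l3.map fun s => (dE, dS s, dS s, dE)) ++ [(dE, dF 0, dF 0, dE)]

/-- codes of letters -/
def codeL : Lt → ℕ
  | .X i => i.val
  | .S i => 3 + i.val
  | .F i => 6 + i.val
  | .E => 9

/-- codes of darts -/
def code (a : Dt) : ℕ := 2 * codeL a.1 + a.2.toNat

theorem codeL_inj : Function.Injective codeL := by
  intro a b h
  have hv : ∀ i : ZMod 3, i.val < 3 := fun i => ZMod.val_lt i
  cases a with
  | X i =>
    cases b with
    | X j => exact congrArg Lt.X (ZMod.val_injective 3 h)
    | S j => have := hv i; have := hv j; simp only [codeL] at h; omega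
    | F j => have := hv i; have := hv j; simp only [codeL] at h; omega
    | E => have := hv i; simp only [codeL] at h; omega
  | S i =>
    cases b with
    | X j => have := hv i; have := hv j; simp only [codeL] at h; omega
    | S j => exact congrArg Lt.S (ZMod.val_injective 3 (by simp only [codeL] at h; omega))
    | F j => have := hv i; have := hv j; simp only [codeL] at h; omega
    | E => have := hv i; simp only [codeL] at h; omega
  | F i =>
    cases b with
    | X j => have := hv i; have := hv j; simp only [codeL] at h; omega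
    | S j => have := hv i; have := hv j; simp only [codeL] at h; omega
    | F j => exact congrArg Lt.F (ZMod.val_injective 3 (by simp only [codeL] at h; omega))
    | E => have := hv i; simp only [codeL] at h; omega
  | E =>
    cases b with
    | X j => have := hv j; simp only [codeL] at h; omega
    | S j => have := hv j; simp only [codeL] at h; omega
    | F j => have := hv j; simp only [codeL] at h; omega
    | E => rfl

theorem code_inj : Function.Injective code := by
  rintro ⟨a, x⟩ ⟨b, y⟩ h
  simp only [code] at h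
  have h1 : x.toNat < 2 := Bool.toNat_lt x
  have h2 : y.toNat < 2 := Bool.toNat_lt y
  have h3 : codeL a = codeL b := by omega
  have h4 : x.toNat = y.toNat := by omega
  rw [codeL_inj h3]
  cases x <;> cases y <;> simp_all

theorem code_lt (a : Dt) : code a < 20 := by
  obtain ⟨a, x⟩ := a
  have h1 : x.toNat < 2 := Bool.toNat_lt x
  have hv : ∀ i : ZMod 3, i.val < 3 := fun i => ZMod.val_lt i
  have h2 : codeL a < 10 := by
    cases a with
    | X i => have := hv i; simp only [codeL]; omega
    | S i => have := hv i; simp only [codeL]; omega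
    | F i => have := hv i; simp only [codeL]; omega
    | E => simp only [codeL]; omega
  simp only [code]
  omega

instance : Finite Dt := Finite.of_injective (fun a => (⟨code a, code_lt a⟩ : Fin 20))
  (fun _ _ h => code_inj (congrArg Fin.val h))

theorem inv_inv (a : Dt) : inv (inv a) = a := by
  simp [inv]

theorem L_chk : SqSys.chk 20
    ((entries inv L).map fun e => (code e.1.1, code e.1.2)) = true := by
  decide +kernel

/-- the square system -/
def sys : SqSys Dt :=
  ofList inv_inv L (chk_spec code code_inj 20 code_lt L L_chk).1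
    (chk_spec code code_inj 20 code_lt L L_chk).2.1
    (chk_spec code code_inj 20 code_lt L L_chk).2.2

theorem mem_XS (s x : ZMod 3) : (dX (x - s), dS s, dS (s + x), dX x) ∈ L := by
  revert s x
  decide +kernel

theorem mem_XF (s x : ZMod 3) : (dX (x - s), dF s, dF (s + x), dX x) ∈ L := by
  revert s x
  decide +kernel

theorem mem_ES (s : ZMod 3) : (dE, dS s, dS s, dE) ∈ L := by
  revert s
  decide +kernel

theorem mem_EF : (dE, dF 0, dF 0, dE) ∈ L := by
  decide +kernel

theorem rel_XS (s x : ZMod 3) :
    sys.gn (dX (x - s)) * sys.gn (dS s) = sys.gn (dS (s + x)) * sys.gn (dX x) :=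
  gn_sq (ofList_sq (mem_XS s x))

theorem rel_XF (s x : ZMod 3) :
    sys.gn (dX (x - s)) * sys.gn (dF s) = sys.gn (dF (s + x)) * sys.gn (dX x) :=
  gn_sq (ofList_sq (mem_XF s x))

theorem rel_ES (s : ZMod 3) : sys.gn dE * sys.gn (dS s) = sys.gn (dS s) * sys.gn dE :=
  gn_sq (ofList_sq (mem_ES s))

theorem rel_EF : sys.gn dE * sys.gn (dF 0) = sys.gn (dF 0) * sys.gn dE :=
  gn_sq (ofList_sq mem_EF)

/-- lookup in a list of corners -/
def lk {A : Type} [DecidableEq A] (l : List ((A × A) × (A × A))) (k : A × A) : Option (A × A) :=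
  l.lookup k

theorem ofList_lk {A : Type} [DecidableEq A] {inv : A → A}
    {hinv : ∀ a, inv (inv a) = a} {L : List (A × A × A × A)}
    {hn : ((entries inv L).map Prod.fst).Nodup}
    {hirr : ∀ e ∈ entries inv L, e.1.1 ≠ e.1.2}
    {htri : ∀ a b c : A, (a, b) ∈ (entries inv L).map Prod.fst →
      (b, c) ∈ (entries inv L).map Prod.fst → (a, c) ∈ (entries inv L).map Prod.fst → False}
    (a b : A) : (ofList hinv L hn hirr htri).sq a b = lk (entries inv L) (a, b) := rfl

theorem sys_sq (a b : Dt) : sys.sq a b = lk (entries inv L) (a, b) := ofList_lk a b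

theorem lookup_EF : ∀ s : ZMod 3, s ≠ 0 →
    lk (entries inv L) (inv dE, inv (dF s)) = none := by
  decide +kernel

theorem no_EF (s : ZMod 3) (h : s ≠ 0) (v : Dt × Dt) : sys.sq (inv dE) (inv (dF s)) ≠ some v := by
  intro h2
  rw [sys_sq, lookup_EF s h] at h2
  cases h2

/-- squares of the Cayley graph come from squares of the system -/
theorem sq_of_corner {A : Type} {S : SqSys A} {u v : S.Grp} {a a' b b' : A} (huv : u ≠ v)
    (h : v = S.gn a' * (S.gn a * u)) (h' : v = S.gn b' * (S.gn b * u))
    (hne : S.gn a * u ≠ S.gn b * u) : S.sq a' b' = some (a, b) := by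
  have ua : ∀ a : A, dd u (S.gn a * u) = 1 := by
    intro a
    unfold dd
    rw [mul_inv_cancel_right, len_gn]
  have h2 : dd u v = 2 := by
    have huv' : dd u v ≠ 0 := by
      intro h
      have := len_eq_zero h
      rw [mul_inv_eq_one] at this
      exact huv this.symm
    have h5 := dd_gn_mul u (S.gn a * u) a'
    rw [← h, ua] at h5
    omega
  have red2 : ∀ a a' : A, v = S.gn a' * (S.gn a * u) → S.Red [a', a] := by
    intro a a' h
    apply red_of_len
    have e : evL (S := S) [a', a] = v * u⁻¹ := by
      rw [h]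
      simp [mul_assoc]
    rw [e]
    exact h2
  have hE : S.E [a', a] [b', b] := by
    apply E_of_evL_eq (red2 _ _ h) (red2 _ _ h')
    simp only [evL_cons, evL_nil, mul_one]
    have := h.symm.trans h'
    rw [← mul_assoc, ← mul_assoc] at this
    exact mul_right_cancel this
  rcases key _ _ _ _ _ rfl hE with ⟨k1, _⟩ | ⟨p, e, f, k1, k2, k3⟩
  · exfalso
    subst k1
    exact hne (mul_left_cancel (h.symm.trans h'))
  · have l1 := E.length k2
    simp only [List.length_cons, List.length_nil] at l1
    have l2 : p = [] := List.eq_nil_of_length_eq_zero (by omega)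
    subst l2
    rw [k1, E_single k2, E_single k3]

/-- the darts `E` and `F s` span a square only if `s = 0` -/
theorem EF_square {s : ZMod 3} {v y : sys.Vx} (hy : y ≠ v)
    (h1 : sys.Cay.Adj ⟨sys.gn dE * v.g⟩ y) (h2 : sys.Cay.Adj ⟨sys.gn (dF s) * v.g⟩ y)
    (hne : sys.gn dE * v.g ≠ sys.gn (dF s) * v.g) : s = 0 := by
  obtain ⟨a, ha⟩ := h1
  obtain ⟨b, hb⟩ := h2
  have h3 : sys.sq a b = some (dE, dF s) :=
    sq_of_corner (fun h => hy (Vx.ext h.symm)) ha hb hne
  by_contra hs
  exact no_EF s hs _ (backs h3)

end Pool.Agent.Helper125_NCE
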